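import Pool.Agent.helper27.SY.Spec

/-!
# Project sy, module SQ: squares of primes
-/

set_option autoImplicit false

namespace Pool.Agent.SY

open Finset ArithmeticFunction Pool.Agent.SX Pool.Agent.helper85.BVP

theorem SQ_class (K y m c : ℕ) (hm : 0 < m) (hc : Nat.Coprime m 30) :
    (((Ioc y (y + K)).filter fun k => m ∣ 30 * k + c).card : ℝ) ≤ K / m + 1 := by
  have hm' : (0 : ℝ) < m := by exact_mod_cast hm
  rcases ((Ioc y (y + K)).filter fun k => m ∣ 30 * k + c).eq_empty_or_nonempty with h0 | ⟨k0, hk0⟩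
  · rw [h0]
    simp only [card_empty, Nat.cast_zero]
    positivity
  · have hsub : ((Ioc y (y + K)).filter fun k => m ∣ 30 * k + c) ⊆
        (Ioc y (y + K)).filter (fun k => k ≡ k0 [MOD m]) := by
      intro k hk
      rw [mem_filter] at hk hk0 ⊢
      refine ⟨hk.1, ?_⟩
      have h1 : 30 * k + c ≡ 30 * k0 + c [MOD m] := by
        rw [Nat.modEq_iff_dvd]
        have e1 : ((m : ℤ)) ∣ ((30 * k0 + c : ℕ) : ℤ) := by exact_mod_cast hk0.2
        have e2 : ((m : ℤ)) ∣ ((30 * k + c : ℕ) : ℤ) := by exact_mod_cast hk.2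
        exact dvd_sub e1 e2
      have h2 : 30 * k ≡ 30 * k0 [MOD m] := Nat.ModEq.add_right_cancel' c h1
      exact Nat.ModEq.cancel_left_of_coprime (by simpa using hc) h2
    have h1 := card_le_card hsub
    have h2 : (((Ioc y (y + K)).filter (fun k => k ≡ k0 [MOD m])).card : ℤ) =
        max (⌊(((y + K : ℕ) : ℚ) - k0) / m⌋ - ⌊(((y : ℕ) : ℚ) - k0) / m⌋) 0 := by
      have := Nat.Ioc_filter_modEq_card y (y + K) hm k0
      exact_mod_cast this
    have h3 : (((Ioc y (y + K)).filter (fun k => k ≡ k0 [MOD m])).card : ℚ) ≤ K / m + 1 := by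
      have hmq : (0 : ℚ) < m := by exact_mod_cast hm
      have h4 : (((Ioc y (y + K)).filter (fun k => k ≡ k0 [MOD m])).card : ℚ) =
        ((max (⌊(((y + K : ℕ) : ℚ) - k0) / m⌋ - ⌊(((y : ℕ) : ℚ) - k0) / m⌋) 0 : ℤ) : ℚ) := by
        exact_mod_cast h2
      rw [h4, Int.cast_max]
      apply max_le
      · have e1 := Int.floor_le ((((y + K : ℕ) : ℚ) - k0) / m)
        have e2 := Int.lt_floor_add_one ((((y : ℕ) : ℚ) - k0) / m)
        push_cast at e1 e2 ⊢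
        have e3 : (((y : ℚ) + K) - k0) / m = ((y : ℚ) - k0) / m + K / m := by ring
        rw [e3] at e1 ⊢
        linarith
      · simp only [Int.cast_zero]
        positivity
    have h5 : (((Ioc y (y + K)).filter (fun k => k ≡ k0 [MOD m])).card : ℝ) ≤ K / m + 1 := by
      have h7 : ((((((Ioc y (y + K)).filter (fun k => k ≡ k0 [MOD m])).card : ℚ)) : ℚ) : ℝ) ≤
          (((K : ℚ) / m + 1 : ℚ) : ℝ) := by
        exact_mod_cast h3
      push_cast at h7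
      exact h7
    have h6 : (((Ioc y (y + K)).filter fun k => m ∣ 30 * k + c).card : ℝ) ≤
      (((Ioc y (y + K)).filter (fun k => k ≡ k0 [MOD m])).card : ℝ) := by exact_mod_cast h1
    linarith

theorem SQ_sq (K y p : ℕ) (hp : p.Prime) (h7 : 7 ≤ p) :
    (sq K y p : ℝ) ≤ 2 * K * ((p : ℝ) ^ 2)⁻¹ + 2 := by
  have hc : Nat.Coprime (p ^ 2) 30 := by
    apply Nat.Coprime.pow_left
    rw [Nat.Prime.coprime_iff_not_dvd hp]
    intro h
    have h1 : p ∣ 2 * 3 * 5 := h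
    rw [Nat.Prime.dvd_mul hp, Nat.Prime.dvd_mul hp] at h1
    rcases h1 with (h1 | h1) | h1
    · exact absurd (Nat.le_of_dvd (by norm_num) h1) (by omega)
    · exact absurd (Nat.le_of_dvd (by norm_num) h1) (by omega)
    · exact absurd (Nat.le_of_dvd (by norm_num) h1) (by omega)
  have hpos : 0 < p ^ 2 := by positivity
  have h1 := SQ_class K y (p ^ 2) 1 hpos hc
  have h2 := SQ_class K y (p ^ 2) 7 hpos hc
  have h3 : sq K y p ≤ ((Ioc y (y + K)).filter fun k => p ^ 2 ∣ 30 * k + 1).card +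
      ((Ioc y (y + K)).filter fun k => p ^ 2 ∣ 30 * k + 7).card := by
    unfold sq
    rw [filter_or]
    exact card_union_le _ _
  have h4 : (sq K y p : ℝ) ≤ (((Ioc y (y + K)).filter fun k => p ^ 2 ∣ 30 * k + 1).card : ℝ) +
      (((Ioc y (y + K)).filter fun k => p ^ 2 ∣ 30 * k + 7).card : ℝ) := by exact_mod_cast h3
  push_cast at h1 h2
  have e : (K : ℝ) / (p : ℝ) ^ 2 = K * ((p : ℝ) ^ 2)⁻¹ := by ring
  rw [e] at h1 h2
  linarith

theorem SQ : SQ_stmt := by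
  intro K y h H hh hH
  have hmem : ∀ p ∈ Bl h H, p.Prime ∧ 7 ≤ p ∧ 2 ^ (h / 10) ≤ p := by
    intro p hp
    unfold Bl at hp
    rw [mem_sdiff] at hp
    obtain ⟨h1, h2⟩ := hp
    unfold Pr at h1 h2
    rw [mem_filter] at h1 h2
    refine ⟨h1.2.1, h1.2.2.1, ?_⟩
    by_contra hlt
    push Not at hlt
    apply h2
    have hlt10 : p ^ 10 < 2 ^ h := by
      calc p ^ 10 < (2 ^ (h / 10)) ^ 10 := Nat.pow_lt_pow_left hlt (by norm_num)
        _ = 2 ^ (h / 10 * 10) := by rw [← pow_mul]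
        _ ≤ 2 ^ h := Nat.pow_le_pow_right (by norm_num) (Nat.div_mul_le_self h 10)
    refine ⟨?_, h1.2.1, h1.2.2.1, hlt10⟩
    rw [mem_range]
    calc p < 2 ^ (h / 10) := hlt
      _ ≤ 2 ^ (h / 10 + 1) := Nat.pow_le_pow_right (by norm_num) (Nat.le_succ _)
  have hlt : ∀ p ∈ Bl h H, p < 2 ^ (H / 10 + 1) := by
    intro p hp
    unfold Bl at hp
    rw [mem_sdiff] at hp
    have h1 := hp.1
    unfold Pr at h1
    rw [mem_filter, mem_range] at h1
    exact h1.1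
  have hcard : ((Bl h H).card : ℝ) ≤ 2 * 2 ^ (H / 10) := by
    have h1 : Bl h H ⊆ range (2 ^ (H / 10 + 1)) := fun p hp => mem_range.2 (hlt p hp)
    have h2 := card_le_card h1
    rw [card_range] at h2
    have h3 : ((Bl h H).card : ℝ) ≤ ((2 ^ (H / 10 + 1) : ℕ) : ℝ) := by exact_mod_cast h2
    push_cast at h3
    rw [pow_succ] at h3
    linarith
  have hN : 1 ≤ 2 ^ (h / 10) := Nat.one_le_two_pow
  have hsum : ∑ p ∈ Bl h H, ((p : ℝ) ^ 2)⁻¹ ≤ 2 / 2 ^ (h / 10) := by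
    have h1 : Bl h H ⊆ Ioo (2 ^ (h / 10) - 1) (2 ^ (H / 10 + 1)) := by
      intro p hp
      rw [mem_Ioo]
      have := (hmem p hp).2.2
      exact ⟨by omega, hlt p hp⟩
    have h2 : ∑ p ∈ Bl h H, ((p : ℝ) ^ 2)⁻¹ ≤
        ∑ p ∈ Ioo ((2 : ℕ) ^ (h / 10) - 1) ((2 : ℕ) ^ (H / 10 + 1)), ((p : ℝ) ^ 2)⁻¹ :=
      sum_le_sum_of_subset_of_nonneg h1 (fun _ _ _ => by positivity)
    have h3 := sum_Ioo_inv_sq_le (α := ℝ) (2 ^ (h / 10) - 1) (2 ^ (H / 10 + 1))
    have h4 : (((2 ^ (h / 10) - 1 : ℕ) : ℝ) + 1) = 2 ^ (h / 10) := by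
      rw [Nat.cast_sub hN]
      push_cast
      ring
    rw [h4] at h3
    linarith
  calc ∑ p ∈ Bl h H, (sq K y p : ℝ)
      ≤ ∑ p ∈ Bl h H, (2 * K * ((p : ℝ) ^ 2)⁻¹ + 2) :=
        sum_le_sum fun p hp => SQ_sq K y p (hmem p hp).1 (hmem p hp).2.1
    _ = 2 * K * ∑ p ∈ Bl h H, ((p : ℝ) ^ 2)⁻¹ + 2 * (Bl h H).card := by
        rw [sum_add_distrib, ← mul_sum, sum_const, nsmul_eq_mul]
        ring
    _ ≤ 2 * K * (2 / 2 ^ (h / 10)) + 2 * (2 * 2 ^ (H / 10)) := by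
        gcongr
    _ = 4 * K / 2 ^ (h / 10) + 4 * 2 ^ (H / 10) := by ring

end Pool.Agent.SY
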